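import Pool.Agent.helper73.AD.GW1

/-!
Module WC1 of the project ad: the hexagons at a leaf.
-/

open scoped MatrixGroups LinearAlgebra.Projectivization BigOperators
open Matrix UpperHalfPlane
open Pool.Agent.helper73.AD (PS Word Arc sg Cone)

namespace AdSBend

noncomputable section

open LeafSystem

theorem WC1_gat_mul (g h : SL(2, ℝ)) (τ : Tri) : gat (g * h) τ = gat g (gat h τ) := by
  simp [gat, ga, mul_smul]

theorem WC1_gat_one (τ : Tri) : gat 1 τ = τ := by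
  simp [gat, ga]

theorem WC1_fanT_even (Γ : Subgroup SL(2, ℝ)) (τ : Tri) (n : ℤ) :
    fanT Γ τ (2 * n) = gat (gen Γ τ.1 ^ n) τ := by
  unfold fanT
  have h1 : (2 * n) / 2 = n := by omega
  have h2 : (2 * n) % 2 = 0 := by omega
  rw [h1, if_pos h2]

theorem WC1_fanT_odd (Γ : Subgroup SL(2, ℝ)) (τ : Tri) (n : ℤ) :
    fanT Γ τ (2 * n + 1) = gat (gen Γ τ.1 ^ n) (nxt Γ τ) := by
  unfold fanT
  have h1 : (2 * n + 1) / 2 = n := by omega
  have h2 : ¬ (2 * n + 1) % 2 = 0 := by omega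
  rw [h1, if_neg h2]

theorem WC1_zpow_fix (g : SL(2, ℝ)) (p : Bd × Bd) (h : ga g p = p) (n : ℤ) :
    ga (g ^ n) p = p := by
  have h1 : g • p.1 = p.1 := congrArg Prod.fst h
  have h2 : g • p.2 = p.2 := congrArg Prod.snd h
  have key : ∀ x : Bd, g • x = x → ∀ n : ℤ, (g ^ n) • x = x := by
    intro x hx n
    have : g ∈ MulAction.stabilizer SL(2, ℝ) x := hx
    exact (MulAction.stabilizer SL(2, ℝ) x).zpow_mem this n
  exact Prod.ext (key _ h1 n) (key _ h2 n)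

theorem WC1 (hR : WR2b_stmt) (hX1 : HX1_stmt) (hX7 : HX7_stmt) (hB4 : BD4_stmt)
    (hG1 : GM1_stmt) : WC1_stmt := by
  intro Γ hΓ S hS τ hτ
  obtain ⟨r1, -, r3, r4, r5, -⟩ := hR Γ hΓ S hS
  obtain ⟨b1, b2, b3, b4, b5, b6⟩ := hB4
  obtain ⟨x1, -, -, -, -, -, -⟩ := hX1 Γ hΓ S
  obtain ⟨x7, -⟩ := hX7 Γ hΓ S hS
  have hpL : τ.1 ∈ S.L := (r5 τ hτ).1
  have hgΓ : gen Γ τ.1 ∈ Γ := (hG1 Γ hΓ τ.1 (S.closed _ hpL)).1
  obtain ⟨-, -, hn, -, hnn, hfix⟩ := r3 τ hτ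
  have hfixn : ∀ n : ℤ, ga (gen Γ τ.1 ^ n) τ.1 = τ.1 := fun n => WC1_zpow_fix _ _ hfix n
  have hpow : ∀ n : ℤ, gen Γ τ.1 ^ n ∈ Γ := fun n => Γ.zpow_mem hgΓ n
  -- basic facts
  have hbase : ∀ m, S.IsHex (fanT Γ τ m) ∧ (fanT Γ τ m).1 = τ.1 ∧
      fanT Γ τ (m + 1) = nxt Γ (fanT Γ τ m) := by
    intro m
    rcases Int.even_or_odd' m with ⟨n, rfl | rfl⟩
    · rw [WC1_fanT_even, WC1_fanT_odd]
      refine ⟨r1 _ (hpow n) _ hτ, hfixn n, ?_⟩
      exact ((r4 _ (hpow n) τ hτ).2.2).symm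
    · have e : 2 * n + 1 + 1 = 2 * (n + 1) := by ring
      rw [e, WC1_fanT_even, WC1_fanT_odd]
      refine ⟨r1 _ (hpow n) _ hn, hfixn n, ?_⟩
      rw [(r4 _ (hpow n) _ hn).2.2, hnn, _root_.zpow_add, zpow_one, WC1_gat_mul]
  have hfull : ∀ m, S.IsHex (fanT Γ τ m) ∧ (fanT Γ τ m).1 = τ.1 ∧
      fanT Γ τ (m + 1) = nxt Γ (fanT Γ τ m) ∧
      (fanT Γ τ (m + 1)).2.1 = (fanT Γ τ m).2.2 := by
    intro m
    obtain ⟨h1, h2, h3⟩ := hbase m
    refine ⟨h1, h2, h3, ?_⟩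
    rw [h3]
    rfl
  have h0 : fanT Γ τ 0 = τ := by
    have := WC1_fanT_even Γ τ 0
    simpa [WC1_gat_one] using this
  have hstep : ∀ m, Cyc τ.1.1 (fanT Γ τ m).2.1.1 (fanT Γ τ (m + 1)).2.1.1 := by
    intro m
    obtain ⟨h1, h2, h3, h4⟩ := hfull m
    rw [h4]
    have := h1.2.2.2.1
    rw [h2] at this
    exact this
  have hord : ∀ m m', m < m' → Cyc τ.1.1 (fanT Γ τ m).2.1.1 (fanT Γ τ m').2.1.1 := by
    intro m m' hlt
    obtain ⟨k, rfl⟩ : ∃ k : ℕ, m' = m + 1 + k := ⟨(m' - (m + 1)).toNat, by omega⟩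
    clear hlt
    induction k with
    | zero => simpa using hstep m
    | succ k ih =>
      have e : m + 1 + ((k + 1 : ℕ) : ℤ) = m + 1 + k + 1 := by push_cast; ring
      rw [e]
      exact (b5 _ _ _ _ ih (hstep (m + 1 + k))).1
  have hinj : ∀ m m', (fanT Γ τ m).2.1 = (fanT Γ τ m').2.1 → m = m' := by
    intro m m' h
    rcases lt_trichotomy m m' with hlt | heq | hgt
    · have := hord m m' hlt
      rw [h] at this
      exact absurd rfl (b1 _ _ _ this).2.1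
    · exact heq
    · have := hord m' m hgt
      rw [h] at this
      exact absurd rfl (b1 _ _ _ this).2.1
  have hex : ∀ τ', S.IsHex τ' → τ'.1 = τ.1 → ∃ m, τ' = fanT Γ τ m := by
    rintro ⟨p', u, v⟩ hτ' hp
    simp only at hp
    subst hp
    obtain ⟨n, ⟨hu, hv⟩ | ⟨hu, hv⟩⟩ := x7 τ.1 τ.2.1 τ.2.2 u v hτ hτ'
    · refine ⟨2 * n, ?_⟩
      rw [WC1_fanT_even]
      unfold gat
      rw [hfixn n, ← hu, ← hv]
    · refine ⟨2 * n + 1, ?_⟩
      rw [WC1_fanT_odd]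
      unfold gat nxt
      simp only
      rw [hfixn n, ← hu, hv, _root_.zpow_add, zpow_one]
      simp only [ga, mul_smul]
  refine ⟨hfull, h0, ?_, hord, ?_⟩
  · intro τ' hτ' hp
    obtain ⟨m, hm⟩ := hex τ' hτ' hp
    refine ⟨m, hm, ?_⟩
    intro m' hm'
    apply hinj
    rw [← hm, ← hm']
  · rintro u ⟨x, hx | hx⟩
    · obtain ⟨m, hm⟩ := hex (τ.1, u, x) hx rfl
      refine ⟨m, ?_, ?_⟩
      · show u = (fanT Γ τ m).2.1
        rw [← hm]
      · intro m' hm'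
        apply hinj
        rw [← hm]
        exact hm'.symm
    · obtain ⟨m, hm⟩ := hex (τ.1, x, u) (x1 _ _ _ hx) rfl
      have h4 := (hfull m).2.2.2
      have hu : u = (fanT Γ τ (m + 1)).2.1 := by
        rw [h4, ← hm]
      refine ⟨m + 1, hu, ?_⟩
      intro m' hm'
      apply hinj
      rw [← hu]
      exact hm'.symm

end

end AdSBend
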