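import Pool.Agent.helper73.AD.GW1

/-!
Module WC2 of the project ad: the virtual base point of the hexagons at a leaf crossed by `l`.
-/

open scoped MatrixGroups LinearAlgebra.Projectivization BigOperators
open Matrix UpperHalfPlane
open Pool.Agent.helper73.AD (PS Word Arc sg Cone)

namespace AdSBend

noncomputable section

open LeafSystem

theorem WC2 (hC1 : WC1_stmt) (hE1 : WE1_stmt) (hE2 : WE2_stmt) (hB4 : BD4_stmt)
    (hP2 : PN2_stmt) : WC2_stmt := by
  intro Γ J K c i τ hτ
  obtain ⟨b1, b2, b3, b4, b5, -⟩ := hB4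
  obtain ⟨p1, -, p3⟩ := hP2 Γ c.hΓ c.X.S
  have hne : ∀ p q, c.X.S.CoPl p q → p ≠ q := by
    intro p q h e
    subst e
    exact (b1 _ _ _ h.2.2.1.1).2.2 rfl
  have hex : c.X.S.Hex τ.1 τ.2.1 τ.2.2 := hτ
  have hordτ : Cyc τ.1.1 τ.2.1.1 τ.2.2.1 := hex.2.2.2.1
  have hcq : c.X.S.CoPl τ.1 τ.2.1 := hex.1
  have hcq' : c.X.S.CoPl τ.1 τ.2.2 := p1 _ _ hex.2.2.1
  -- the fan at the first leaf of τ
  obtain ⟨f1, f2, f3, f4, f5⟩ := hC1 Γ c.hΓ c.X.S c.X.pants τ hτ
  have hq0 : (fanT Γ τ 0).2.1 = τ.2.1 := by rw [f2]
  have hq1 : (fanT Γ τ 1).2.1 = τ.2.2 := by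
    have := (f1 0).2.2.2
    rw [f2] at this
    simpa using this
  constructor
  · intro h1
    have cq : c.X.S.CoPl (c.W.A i) τ.2.1 := h1 ▸ hcq
    have cq' : c.X.S.CoPl (c.W.A i) τ.2.2 := h1 ▸ hcq'
    have oq := (hE1 Γ J K c i τ.2.1 (Or.inr cq)).1
    have oq' := (hE1 Γ J K c i τ.2.2 (Or.inr cq')).1
    have op := (hE1 Γ J K c i (c.W.A i) (Or.inl rfl)).1
    have hord : Cyc (c.W.A i).1 τ.2.1.1 τ.2.2.1 := h1 ▸ hordτ
    have himp : c.One i τ.2.1 → c.One i τ.2.2 := by
      rintro (h | h | h)
      · exact absurd h.symm (hne _ _ cq)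
      · right; right
        rw [← h]
        exact hord
      · right; right
        exact (b5 _ _ _ _ h hord).1
    have key : c.One i τ.2.1 ↔
        (τ.2.1 = c.W.U i ∨ Cyc (c.W.A i).1 (c.W.U i).1 τ.2.1.1) := by
      rcases hE2 Γ J K c i with ⟨⟨x, hx, hU, hV⟩, hall⟩ | ⟨hns, x, y, hxy, hB, hByx, hU, hV, hoy,
        hzy, hzx, hox, hall⟩
      · rw [hU]
        constructor
        · rintro (h | h | h)
          · exact absurd h.symm (hne _ _ cq)
          · exact Or.inl h
          · exact Or.inr h
        · rintro (h | h)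
          · exact Or.inr (Or.inl h)
          · exact Or.inr (Or.inr h)
      · rw [hU]
        have hy : Cyc (c.W.A i).1 (sw (c.W.A (i + 1))).1 y.1 := by
          rcases hoy with h | h | h
          · exact absurd (Or.inl h) hzy
          · exact absurd (Or.inr (Or.inl h)) hzy
          · exact h
        have hx : Cyc (sw (c.W.A (i + 1))).1 (c.W.A i).1 x.1 := by
          rcases hzx with h | h | h
          · exact absurd (Or.inl h) hox
          · exact absurd (Or.inr (Or.inl h)) hox
          · exact h
        constructor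
        · intro ho
          -- fan numbering
          rw [← h1] at hxy
          obtain ⟨m, hm, -⟩ := f3 (τ.1, x, y) hxy rfl
          have hmx : (fanT Γ τ m).2.1 = x := by rw [← hm]
          have hmy : (fanT Γ τ (m + 1)).2.1 = y := by rw [(f1 m).2.2.2, ← hm]
          rcases lt_trichotomy 0 (m + 1) with hlt | heq | hgt
          · rcases lt_or_eq_of_le (by omega : 0 ≤ m) with hlt' | heq'
            · -- 0 < m : q before x
              exfalso
              have h3 := f4 0 m hlt'
              rw [hq0, hmx, h1] at h3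
              -- Cyc p q x, Cyc p x B
              have h4 : Cyc (c.W.A i).1 x.1 (sw (c.W.A (i + 1))).1 := b2 _ _ _ hx
              have h5 := (b5 _ _ _ _ h3 h4).1
              rcases ho with h | h | h
              · exact absurd h.symm (hne _ _ cq)
              · rw [h] at h5
                exact (b1 _ _ _ h5).2.1 rfl
              · exact b3 _ _ _ h h5
            · exfalso
              apply hox
              rw [← hmx, ← heq', hq0]
              exact ho
          · left
            rw [← hmy, ← heq, hq0]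
          · right
            have h3 := f4 (m + 1) 0 hgt
            rw [hq0, hmy, h1] at h3
            exact h3
        · rintro (h | h)
          · rw [h]; exact hoy
          · right; right
            exact (b5 _ _ _ _ hy h).1
    have hiff : ((Behind c.l τ.1.1 ∨ Behind c.l τ.1.2) ∧
        (Behind c.l τ.2.1.1 ∨ Behind c.l τ.2.1.2) ∧ (Behind c.l τ.2.2.1 ∨ Behind c.l τ.2.2.2)) ↔
        (τ.2.1 = c.W.U i ∨ Cyc (c.W.A i).1 (c.W.U i).1 τ.2.1.1) := by
      rw [oq, oq', h1, op, ← key]
      constructor
      · rintro ⟨-, h, -⟩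
        exact h
      · intro h
        exact ⟨Or.inl rfl, h, himp h⟩
    unfold chT
    by_cases h : ((Behind c.l τ.1.1 ∨ Behind c.l τ.1.2) ∧
        (Behind c.l τ.2.1.1 ∨ Behind c.l τ.2.1.2) ∧ (Behind c.l τ.2.2.1 ∨ Behind c.l τ.2.2.2))
    · rw [if_pos h, if_pos (hiff.1 h)]
    · rw [if_neg h, if_neg (fun h' => h (hiff.2 h'))]
  · intro h1
    obtain ⟨j, rfl⟩ : ∃ j, i = j + 1 := ⟨i - 1, by ring⟩
    have hAB : c.X.S.CoPl (c.W.A j) (sw (c.W.A (j + 1))) := c.W.copl j
    have hBA : c.X.S.CoPl (sw (c.W.A (j + 1))) (c.W.A j) := p1 _ _ hAB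
    have cq : c.X.S.CoPl (sw (c.W.A (j + 1))) τ.2.1 := h1 ▸ hcq
    have cq' : c.X.S.CoPl (sw (c.W.A (j + 1))) τ.2.2 := h1 ▸ hcq'
    have inq : ∀ q, c.X.S.CoPl (sw (c.W.A (j + 1))) q →
        (q = c.W.A j ∨ c.X.S.CoPl (c.W.A j) q) := by
      intro q hq
      by_cases h : q = c.W.A j
      · exact Or.inl h
      · exact Or.inr (p3 _ _ _ hBA hq (Ne.symm h))
    have oq := (hE1 Γ J K c j τ.2.1 (inq _ cq)).1
    have oq' := (hE1 Γ J K c j τ.2.2 (inq _ cq')).1
    have op := (hE1 Γ J K c j (sw (c.W.A (j + 1))) (Or.inr hAB)).1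
    have hord : Cyc (sw (c.W.A (j + 1))).1 τ.2.1.1 τ.2.2.1 := h1 ▸ hordτ
    have himp : c.One j τ.2.2 → c.One j τ.2.1 := by
      rintro (h | h | h)
      · right; right
        rw [h] at hord
        exact b2 _ _ _ (b2 _ _ _ hord)
      · exact absurd h.symm (hne _ _ cq')
      · right; right
        have h2 := b2 _ _ _ h
        exact b2 _ _ _ (b2 _ _ _ (b5 _ _ _ _ hord h2).1)
    have key : c.One j τ.2.2 ↔
        Cyc (sw (c.W.A (j + 1))).1 τ.2.1.1 (c.W.V (j + 1)).1 := by
      rcases hE2 Γ J K c j with ⟨⟨x, hx, hU, hV⟩, hall⟩ | ⟨hns, x, y, hxy, hB, hByx, hU, hV, hoy,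
        hzy, hzx, hox, hall⟩
      · rw [hV]
        have hseam : c.X.S.Seam τ.1 (c.W.A j) := by
          rw [h1]
          exact ⟨x, hx.symm⟩
        obtain ⟨m, hm, -⟩ := f5 _ hseam
        have hm : c.W.A j = (fanT Γ τ m).2.1 := hm
        constructor
        · rintro (h | h | h)
          · rw [← h]; exact hord
          · exact absurd h.symm (hne _ _ cq')
          · exact (b5 _ _ _ _ hord (b2 _ _ _ h)).1
        · intro h
          have hm0 : 0 < m := by
            rcases lt_trichotomy 0 m with hlt | heq | hgt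
            · exact hlt
            · exfalso
              rw [hm, ← heq, hq0] at h
              exact (b1 _ _ _ h).2.1 rfl
            · exfalso
              have h3 := f4 m 0 hgt
              rw [hq0, ← hm, h1] at h3
              exact b3 _ _ _ h h3
          rcases lt_or_eq_of_le (by omega : 1 ≤ m) with hlt | heq
          · right; right
            have h3 := f4 1 m hlt
            rw [hq1, ← hm, h1] at h3
            exact b2 _ _ _ (b2 _ _ _ h3)
          · left
            rw [hm, ← heq, hq1]
      · rw [hV]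
        have hy : Cyc (c.W.A j).1 (sw (c.W.A (j + 1))).1 y.1 := by
          rcases hoy with h | h | h
          · exact absurd (Or.inl h) hzy
          · exact absurd (Or.inr (Or.inl h)) hzy
          · exact h
        have hx : Cyc (sw (c.W.A (j + 1))).1 (c.W.A j).1 x.1 := by
          rcases hzx with h | h | h
          · exact absurd (Or.inl h) hox
          · exact absurd (Or.inr (Or.inl h)) hox
          · exact h
        rw [← h1] at hByx
        obtain ⟨m, hm, -⟩ := f3 (τ.1, y, x) hByx rfl
        have hmy : (fanT Γ τ m).2.1 = y := by rw [← hm]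
        have hmx : (fanT Γ τ (m + 1)).2.1 = x := by rw [(f1 m).2.2.2, ← hm]
        constructor
        · intro ho
          rcases lt_trichotomy 0 m with hlt | heq | hgt
          · have h3 := f4 0 m hlt
            rw [hq0, hmy, h1] at h3
            exact h3
          · exfalso
            apply hox
            rw [← hmx, ← heq, zero_add, hq1]
            exact ho
          · exfalso
            have h3 := f4 (m + 1) 1 (by omega)
            rw [hq1, hmx, h1] at h3
            -- Cyc B x q', Cyc B p x
            have h4 := (b5 _ _ _ _ hx h3).1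
            rcases ho with h | h | h
            · rw [h] at h4
              exact (b1 _ _ _ h4).2.1 rfl
            · exact absurd h.symm (hne _ _ cq')
            · exact b3 _ _ _ h4 (b2 _ _ _ h)
        · intro h
          have hm0 : 0 < m := by
            rcases lt_trichotomy 0 m with hlt | heq | hgt
            · exact hlt
            · exfalso
              rw [← hmy, ← heq, hq0] at h
              exact (b1 _ _ _ h).2.1 rfl
            · exfalso
              have h3 := f4 m 0 hgt
              rw [hq0, hmy, h1] at h3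
              exact b3 _ _ _ h h3
          rcases lt_or_eq_of_le (by omega : 1 ≤ m) with hlt | heq
          · right; right
            have h3 := f4 1 m hlt
            rw [hq1, hmy, h1] at h3
            exact b2 _ _ _ (b2 _ _ _ (b5 _ _ _ _ h3 (b2 _ _ _ hy)).1)
          · have : τ.2.2 = y := by rw [← hmy, ← heq, hq1]
            rw [this]
            exact hoy
    have hiff : ((Behind c.l τ.1.1 ∨ Behind c.l τ.1.2) ∧
        (Behind c.l τ.2.1.1 ∨ Behind c.l τ.2.1.2) ∧ (Behind c.l τ.2.2.1 ∨ Behind c.l τ.2.2.2)) ↔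
        Cyc (sw (c.W.A (j + 1))).1 τ.2.1.1 (c.W.V (j + 1)).1 := by
      rw [oq, oq', h1, op, ← key]
      constructor
      · rintro ⟨-, -, h⟩
        exact h
      · intro h
        exact ⟨Or.inr (Or.inl rfl), himp h, h⟩
    unfold chT
    by_cases h : ((Behind c.l τ.1.1 ∨ Behind c.l τ.1.2) ∧
        (Behind c.l τ.2.1.1 ∨ Behind c.l τ.2.1.2) ∧ (Behind c.l τ.2.2.1 ∨ Behind c.l τ.2.2.2))
    · rw [if_pos h, if_pos (hiff.1 h)]
    · rw [if_neg h, if_neg (fun h' => h (hiff.2 h'))]

end

end AdSBend
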