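import Pool.Agent.helper73.AD.GW1

/-!
Module WC3 of the project ad: the translates of a point of a leaf crossed by `l`.
-/

open scoped MatrixGroups LinearAlgebra.Projectivization BigOperators
open Matrix UpperHalfPlane
open Pool.Agent.helper73.AD (PS Word Arc sg Cone)

namespace AdSBend

noncomputable section

open LeafSystem

theorem WC3_neg_smul (g : SL(2, ℝ)) (z : ℍ) : (-g) • z = g • z := by
  apply UpperHalfPlane.ext
  rw [UpperHalfPlane.coe_specialLinearGroup_apply, UpperHalfPlane.coe_specialLinearGroup_apply]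
  have h : ∀ i j, ((-g : SL(2, ℝ)) i j : ℝ) = -(g i j) := by
    intro i j
    rw [Matrix.SpecialLinearGroup.coe_neg]; rfl
  simp only [h, map_neg, Complex.ofReal_neg]
  rw [← neg_div_neg_eq]
  congr 1 <;> ring

theorem WC3_peq_smul {g h : SL(2, ℝ)} (h1 : PEq g h) (z : ℍ) : g • z = h • z := by
  rcases h1 with rfl | rfl
  · rfl
  · exact WC3_neg_smul _ _

theorem WC3_peq_pos (g : SL(2, ℝ)) : PEq g (pos g) := by
  unfold pos
  split_ifs
  · left; rfl
  · right; exact (neg_neg _).symm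

/-- if two elements act in the same way, so do their powers -/
theorem WC3_zpow_smul {g h : SL(2, ℝ)} (e : ∀ z : ℍ, g • z = h • z) (m : ℤ) (z : ℍ) :
    g ^ m • z = h ^ m • z := by
  have e' : ∀ z : ℍ, g⁻¹ • z = h⁻¹ • z := by
    intro z
    rw [inv_smul_eq_iff, e, smul_inv_smul]
  induction m using Int.induction_on generalizing z with
  | zero => simp
  | succ n ih => rw [_root_.zpow_add_one, _root_.zpow_add_one, mul_smul, mul_smul, e, ih]
  | pred n ih =>
    rw [_root_.zpow_sub_one, _root_.zpow_sub_one, mul_smul, mul_smul, e', ih]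

theorem WC3_side (s t : ℝ) : ∃ k : ℝ, 0 < k ∧ ∀ z : ℍ,
    side z (bPt s) (bPt t) = k * (((s - z.re) * (t - z.re) + z.im ^ 2) * (s - t)) := by
  obtain ⟨a, ha⟩ := Projectivization.exists_smul_eq_mk_rep ℝ (![s, 1] : Fin 2 → ℝ)
    (by intro h; simpa using congrFun h 1)
  obtain ⟨b, hb⟩ := Projectivization.exists_smul_eq_mk_rep ℝ (![t, 1] : Fin 2 → ℝ)
    (by intro h; simpa using congrFun h 1)
  have ha' : (bPt s).rep = (a : ℝ) • ![s, 1] := ha.symm
  have hb' : (bPt t).rep = (b : ℝ) • ![t, 1] := hb.symm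
  have ha0 : (a : ℝ) ≠ 0 := a.ne_zero
  have hb0 : (b : ℝ) ≠ 0 := b.ne_zero
  refine ⟨((a : ℝ) * b) ^ 2, by positivity, ?_⟩
  intro z
  unfold side dt
  rw [ha', hb']
  simp only [Pi.smul_apply, smul_eq_mul, Matrix.cons_val_zero, Matrix.cons_val_one]
  ring

theorem WC3_Dm_zpow (hF0 : FA0_stmt) (L : ℝ) (m : ℤ) : Dm L ^ m = Dm (m * L) := by
  obtain ⟨h1, h2, h3, -⟩ := hF0
  induction m using Int.induction_on with
  | zero => simp [h2]
  | succ n ih =>
    rw [_root_.zpow_add_one, ih, h1]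
    congr 1
    push_cast
    ring
  | pred n ih =>
    rw [_root_.zpow_sub_one, ih, h3, h1]
    congr 1
    push_cast
    ring

theorem WC3 (hF0 : FA0_stmt) (hB6 : BD6_stmt) (hB7 : BD7_stmt) (hB8 : BD8_stmt)
    (hP1 : PT1_stmt) (hP5 : PT5_stmt) (hG1 : GM1_stmt) (hG2 : GM2_stmt) : WC3_stmt := by
  intro Γ J K c i z hz
  obtain ⟨hAL, hA2, hA1⟩ := c.W.mem i
  have hcl : IsClosedGeodesic Γ (c.W.A i).1 (c.W.A i).2 := c.X.S.closed _ hAL
  obtain ⟨F, hF⟩ := hB6.1 (c.W.A i) hcl.1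
  have hatt : Attracts (gen Γ (c.W.A i)) (c.W.A i) := (hG1 Γ c.hΓ (c.W.A i) hcl).2.1
  obtain ⟨hpos, hL⟩ := hB8.2.1 _ F _ hatt hF
  set L := len (gen Γ (c.W.A i)) with hLdef
  -- coordinates of the endpoints of l
  obtain ⟨t2, ht2, e2⟩ := (hB7.1 F (c.W.A i) c.l.2 hF).1.1 hA2
  obtain ⟨t1, ht1, e1⟩ := (hB7.1 F (c.W.A i) c.l.1 hF).2.1 hA1
  obtain ⟨k0, hk0, hside⟩ := WC3_side t1 t2
  -- coordinate of z
  set w : ℍ := F⁻¹ • z with hw
  have hzw : z = F • w := by rw [hw, smul_inv_smul]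
  have hre : w.re = 0 := by
    obtain ⟨h1, h2⟩ := hP5.1 F (c.W.A i) w hF
    rw [← hzw, hz] at h1 h2
    have h3 : ¬ (0 < w.re) := fun h => lt_irrefl _ (h1.2 h)
    have h4 : ¬ (w.re < 0) := fun h => lt_irrefl _ (h2.2 h)
    linarith [not_lt.1 h3, not_lt.1 h4]
  -- action of the powers
  have hact : ∀ m : ℤ, (gen Γ (c.W.A i)) ^ m • z = F • (Dm (m * L) • w) := by
    intro m
    have e : ∀ u : ℍ, gen Γ (c.W.A i) • u = (F * Dm L * F⁻¹) • u := by
      intro u
      rw [WC3_peq_smul (WC3_peq_pos _) u, hpos]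
    rw [WC3_zpow_smul e m z]
    have : (F * Dm L * F⁻¹) ^ m = F * Dm L ^ m * F⁻¹ := by
      rw [conj_zpow]
    rw [this, WC3_Dm_zpow hF0, mul_smul, mul_smul, hw]
  have hbeh : ∀ m : ℤ, BehindPt c.l ((gen Γ (c.W.A i)) ^ m • z) ↔
      -(t1 * t2) < (Real.exp (m * L) * w.im) ^ 2 := by
    intro m
    unfold BehindPt
    rw [hact m]
    have e3 : c.l.1 = F • bPt t1 := e1
    have e4 : c.l.2 = F • bPt t2 := e2
    rw [e3, e4, (hP1 F _ _ _).1, hside]
    have hc := hP5.2.2 (m * L) w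
    have hcre : (Dm (m * L) • w : ℍ).re = 0 := by
      have := congrArg Complex.re hc
      rw [Complex.re_ofReal_mul] at this
      have h5 : ((w : ℂ)).re = 0 := hre
      rw [h5, mul_zero] at this
      exact this
    have hcim : (Dm (m * L) • w : ℍ).im = Real.exp (m * L) * w.im := by
      have := congrArg Complex.im hc
      rw [Complex.im_ofReal_mul] at this
      exact this
    rw [hcre, hcim]
    have h6 : 0 < t1 - t2 := by linarith
    rw [mul_pos_iff_of_pos_left hk0, mul_pos_iff_of_pos_right h6]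
    constructor
    · intro h; linarith
    · intro h; linarith
  have hc0 : 0 < -(t1 * t2) := by nlinarith
  have him : 0 < w.im := w.im_pos
  -- the threshold
  set R : ℝ := Real.log (-(t1 * t2) / w.im ^ 2) / (2 * L) with hR
  have hthr : ∀ m : ℤ, -(t1 * t2) < (Real.exp (m * L) * w.im) ^ 2 ↔ R < m := by
    intro m
    have h1 : (Real.exp (m * L) * w.im) ^ 2 = Real.exp (2 * (m * L)) * w.im ^ 2 := by
      rw [mul_pow, ← Real.exp_nat_mul]
      push_cast
      ring_nf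
    rw [h1, ← div_lt_iff₀ (by positivity), ← Real.log_lt_iff_lt_exp (by positivity)]
    rw [hR, div_lt_iff₀ (by positivity)]
    constructor
    · intro h; linarith
    · intro h; linarith
  refine ⟨⌊R⌋ + 1, fun m => ?_⟩
  have hk : ∀ m : ℤ, BehindPt c.l ((gen Γ (c.W.A i)) ^ m • z) ↔ ⌊R⌋ + 1 ≤ m := by
    intro m
    rw [hbeh, hthr, Int.add_one_le_iff, Int.floor_lt]
  refine ⟨hk m, ?_⟩
  have hsw : PEq (gen Γ (sw (c.W.A i))) (gen Γ (c.W.A i))⁻¹ := (hG2 Γ c.hΓ).2.2 _ hcl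
  rw [WC3_zpow_smul (WC3_peq_smul hsw) m z, _root_.inv_zpow', hk (-m)]
  omega

end

end AdSBend
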